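import Pool.Agent.Lib.SLT.EVal

set_option autoImplicit false

/-!
# EUnit: the units of `R[1/f]`

PROOF of `hu_away`. Let `F = FractionRing A`, an `R`-algebra through `A`, and a fraction field of `R` (see
EBase). Let `v` be the `f`-adic valuation (`loc_dval`, `dval_hom`) and `θ` its restriction to
`IU A F`. Let `a ∈ IU A F`, `v a = 1`. `A` is integrally closed in `F`: `R` is a UFD, hence integrally
closed, so is its localization `A` (`IsIntegrallyClosed`, `isIntegrallyClosed_of_isLocalization` or
directly: if `a ∈ F` is integral over `A` then `f ^ n a` is integral over `R` for some `n`,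
so `f ^ n a ∈ R`). So `f ^ n a ∈ R` and `f ^ n a⁻¹ ∈ R` for some `n`; as `a, a⁻¹ ∈ loc`, `a, a⁻¹ ∈ R`
(`mem_range_of_loc`): `a` is (the image of) a unit of `R`, of finite order by `h0`.
-/

namespace Pool.Agent.Lib.SLT

theorem hu_away (R : Type) [CommRing R] [IsDomain R] [UniqueFactorizationMonoid R] (f : R)
    (hf : Prime f) (A : Type) [CommRing A] [IsDomain A] [Algebra R A] [IsLocalization.Away f A]
    (h0 : ∀ u : Rˣ, IsOfFinOrder u) : HU A := by
  have hM : Submonoid.powers f ≤ nonZeroDivisors R :=
    powers_le_nonZeroDivisors_of_noZeroDivisors hf.ne_zero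
  have hinj : Function.Injective (algebraMap R A) := IsLocalization.injective A hM
  have hcom : (nonZeroDivisors A).comap (algebraMap R A) = nonZeroDivisors R := by
    ext x
    rw [Submonoid.mem_comap, mem_nonZeroDivisors_iff_ne_zero, mem_nonZeroDivisors_iff_ne_zero]
    exact (map_ne_zero_iff _ hinj)
  have : IsFractionRing R (FractionRing A) := by
    have := IsLocalization.localization_localization_isLocalization_of_has_all_units
      (R := R) (Submonoid.powers f) (S := A) (nonZeroDivisors A) (FractionRing A)
      (fun x hx => hx.mem_nonZeroDivisors)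
    rw [hcom] at this
    exact this
  have : IsIntegrallyClosed A :=
    isIntegrallyClosed_of_isLocalization (R := R) A (Submonoid.powers f) hM
  obtain ⟨v, _, hv⟩ := dval_hom (loc_dval (R := R) (F := FractionRing A) hf)
  have hR : ∀ a : FractionRing A, IsIntegral A a → a ∈ loc R (FractionRing A) f hf →
      ∃ r : R, a = algebraMap R (FractionRing A) r := by
    intro a ha hl
    obtain ⟨a', ha'⟩ := IsIntegrallyClosed.isIntegral_iff.1 ha
    obtain ⟨⟨r, s⟩, hs⟩ := IsLocalization.surj (Submonoid.powers f) a'
    obtain ⟨n, hn⟩ := s.2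
    refine mem_range_of_loc hf hl n ⟨r, ?_⟩
    have h1 := congrArg (algebraMap A (FractionRing A)) hs
    simp only at hn h1
    rw [map_mul, ← hn, ← IsScalarTower.algebraMap_apply R A, ← IsScalarTower.algebraMap_apply R A,
      ha', map_pow] at h1
    rw [mul_comm]
    exact h1
  refine ⟨v.comp (IU A (FractionRing A)).subtype, fun a ha => ?_⟩
  have h1 := (hv a.1).1 ha
  obtain ⟨r, hr⟩ := hR _ a.2.1 h1.1
  obtain ⟨s, hs⟩ := hR _ a.2.2 (by
    rw [Units.val_inv_eq_inv_val]
    exact h1.2)
  have hrs : r * s = 1 := by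
    apply IsFractionRing.injective R (FractionRing A)
    rw [map_mul, ← hr, ← hs, map_one, Units.mul_inv]
  have hsr : s * r = 1 := by rw [mul_comm, hrs]
  let u : Rˣ := ⟨r, s, hrs, hsr⟩
  have h2 : IsOfFinOrder (Units.map (algebraMap R (FractionRing A)).toMonoidHom u) :=
    MonoidHom.isOfFinOrder _ (h0 u)
  have h3 : Units.map (algebraMap R (FractionRing A)).toMonoidHom u = a.1 := by
    ext
    exact hr.symm
  rw [h3] at h2
  exact Submonoid.isOfFinOrder_coe.1 h2

end Pool.Agent.Lib.SLT
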