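import Pool.Agent.Lib.SLT.QDrop
import Pool.Agent.Lib.SLT.AComm

set_option autoImplicit false

/-!
# QCore: reduction to the subgroups with constant traces

PROOF of `q_core`. If `d = 0` everywhere, all elements of `R` are constants (`h.const`), so `hV ⊤`
gives `StV ⊤`, hence `StV G` (transport along `Subgroup.topEquiv`; see how `StV` is transported in
`CStep.lean`/`DInt.lean`, e.g. `StV.of_equiv` or `stV_of_equiv`). Otherwise `F = FractionRing R`,
`od_dval` gives `c`; `G` acts on `X = BT O F²` through `rv F ρ`; `bt_tact` (`Pi.basisFun`, `q_du`),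
`q_drops`. Apply `tree_stV` (as at the end of `step` in `CStep.lean`):
* vertices `x = [b]`: `g ∈ stab x` preserves `lat O b` (`fix_iff`, `q_du`), so the trace of `rv F ρ g`,
  the sum of two coordinates, is in `O` (`q_trace`); it is the image of the trace of `ρ g`; `od_const`.
* edges: the stabilizer of an edge is a subgroup of the stabilizer of a vertex, so `hV` applies to it.
* axes: `axisStab_comm`, and `ρ`, `gv`, `Matrix.GeneralLinearGroup.map` are injective (`rv_injective`):
  the stabilizer is commutative, `stReg_comm` contradicts `¬ StReg`.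
-/

namespace Pool.Agent.Lib.SLT

open Pool.Agent.Lib.MP_16fe43_al (StV StReg TAct tree_stV)
open Pool.Agent.Lib.BHS16 (TorsionFree)

theorem rv_injective {R F : Type} [CommRing R] [IsDomain R] [Field F] [Algebra R F]
    [IsFractionRing R F] {G : Type} [Group G] {ρ : G →* GL (Fin 2) R}
    (hρ : Function.Injective ρ) : Function.Injective (rv F ρ) := by
  have h1 : Function.Injective (Matrix.GeneralLinearGroup.map (n := Fin 2) (algebraMap R F)) := by
    intro g g' h
    apply Units.ext
    ext i j
    have h2 := congrArg (fun u : GL (Fin 2) F => (u : Matrix (Fin 2) (Fin 2) F) i j) h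
    exact IsFractionRing.injective R F h2
  exact gv_injective.comp (h1.comp hρ)

theorem q_trace {R F : Type} [CommRing R] [Field F] [Algebra R F] {G : Type} [Group G]
    (ρ : G →* GL (Fin 2) R) (O : Subring F) (b : Bs F (Fin 2 → F)) (g : G)
    (hg : ∀ v ∈ lat O b, rv F ρ g v ∈ lat O b) :
    algebraMap R F (Matrix.trace (ρ g : Matrix (Fin 2) (Fin 2) R)) ∈ O := by
  have h1 : ((rv F ρ g : (Fin 2 → F) ≃ₗ[F] (Fin 2 → F)) : (Fin 2 → F) →ₗ[F] (Fin 2 → F)) =
      Matrix.toLin' ((ρ g : Matrix (Fin 2) (Fin 2) R).map (algebraMap R F)) := by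
    refine LinearMap.ext fun v => ?_
    rw [Matrix.toLin'_apply]
    exact rv_apply ρ g v
  have h2 : LinearMap.trace F (Fin 2 → F)
      ((rv F ρ g : (Fin 2 → F) ≃ₗ[F] (Fin 2 → F)) : (Fin 2 → F) →ₗ[F] (Fin 2 → F)) =
      algebraMap R F (Matrix.trace (ρ g : Matrix (Fin 2) (Fin 2) R)) := by
    rw [h1, LinearMap.trace_eq_matrix_trace F (Pi.basisFun F (Fin 2)),
      LinearMap.toMatrix_eq_toMatrix', LinearMap.toMatrix'_toLin', Matrix.trace_fin_two,
      Matrix.trace_fin_two, map_add]
    rfl
  rw [← h2, LinearMap.trace_eq_matrix_trace F b, Matrix.trace_fin_two, LinearMap.toMatrix_apply,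
    LinearMap.toMatrix_apply]
  have h3 : ∀ i : Fin 2, b.repr (rv F ρ g (b i)) i ∈ O := by
    intro i
    exact (mem_lat_iff O b _).1 (hg (b i) (Submodule.subset_span ⟨i, rfl⟩)) i
  exact O.add_mem (h3 0) (h3 1)

theorem q_core {K R : Type} [Field K] [CommRing R] [IsDomain R] [Algebra K R] {d : R → ℕ}
    (h : DegFun K R d) {G : Type} [Group G] (tf : TorsionFree G) (ρ : G →* GL (Fin 2) R)
    (hρ : Function.Injective ρ)
    (hV : ∀ H : Subgroup G, TrC K (ρ.comp H.subtype) → StV H) : StV G := by
  by_cases hpos : ∃ a : R, 0 < d a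
  swap
  · push Not at hpos
    have h1 : StV (⊤ : Subgroup G) := hV ⊤ fun g => h.const _ (Nat.le_zero.1 (hpos _))
    exact FPT.stV_of_equiv Subgroup.topEquiv h1
  · obtain ⟨c, hO⟩ := od_dval (F := FractionRing R) h hpos
    let b : Bs (FractionRing R) (Fin 2 → FractionRing R) := Pi.basisFun (FractionRing R) (Fin 2)
    let _ : MulAction G (BT (od h (FractionRing R)) (Fin 2 → FractionRing R)) :=
      MulAction.compHom (BT (od h (FractionRing R)) (Fin 2 → FractionRing R))
        (rv (FractionRing R) ρ)
    have hsm : ∀ (g : G) (x : BT (od h (FractionRing R)) (Fin 2 → FractionRing R)),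
        g • x = rv (FractionRing R) ρ g • x := fun g x => rfl
    have hT : TAct G (btG (od h (FractionRing R)) c (Fin 2 → FractionRing R)) :=
      bt_tact hO b (rv (FractionRing R) ρ) (q_du h ρ)
    have htr : ∀ (x : BT (od h (FractionRing R)) (Fin 2 → FractionRing R)) (H : Subgroup G),
        H ≤ MulAction.stabilizer G x → TrC K (ρ.comp H.subtype) := by
      intro x H hH g
      obtain ⟨b', rfl⟩ := exists_mk (od h (FractionRing R)) x
      have h1 : (g : G) • mk (od h (FractionRing R)) b' = mk (od h (FractionRing R)) b' :=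
        MulAction.mem_stabilizer_iff.1 (hH g.2)
      rw [hsm, fix_iff hO _ (q_du h ρ _)] at h1
      exact od_const (F := FractionRing R) h
        (q_trace ρ (od h (FractionRing R)) b' (g : G) fun v hv => (h1 v).2 hv)
    refine tree_stV hT (q_drops h hO ρ _) ?_ ?_ ?_
    · intro x
      exact hV _ (htr x _ le_rfl)
    · intro x y _ j
      exact (hV _ (htr x (MulAction.stabilizer G x ⊓ MulAction.stabilizer G y) inf_le_left) j).2.1
    · intro w hw hR
      exfalso
      apply hR
      have htf : ∀ H : Subgroup G, TorsionFree H := by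
        intro H g hg
        apply Subtype.ext
        exact tf (g : G) (H.subtype.isOfFinOrder hg)
      refine stReg_comm ?_ (htf _)
      intro g g'
      have h1 := axisStab_comm hO b (rv (FractionRing R) ρ) (q_du h ρ) w hw (g : G) (g' : G)
        g.2 g'.2
      apply Subtype.ext
      refine rv_injective (F := FractionRing R) hρ ?_
      show rv (FractionRing R) ρ ((g : G) * g') = rv (FractionRing R) ρ ((g' : G) * g)
      rw [map_mul, map_mul]
      exact h1

end Pool.Agent.Lib.SLT
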