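import Pool.Agent.Lib.SLT.QVal
import Pool.Agent.Lib.SLT.PDrop

set_option autoImplicit false

/-!
# QDrop: bounded drops at infinity

PROOF of `q_du`: the determinant of `rv F ρ g` is the image of the determinant of the matrix `ρ g`
(`LinearMap.det_toLin'` or `Matrix.toLin'`; `rv_apply`), a unit of `R`, so a constant
(`h.unit_const`), and the same for the inverse; `od_cst`.
PROOF of `q_drops`: as `bt_drops` in `PDrop.lean` (read it first). Let `u = [b']`. There is `N` with
`c ^ N • e_j ∈ lat O b'` for the standard basis `e`, and `c ^ N • w ∈ lat O e` for `w ∈ lat O b'`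
(coordinates: for every `x : F` there is `N` with `c ^ n * x ∈ O` for `n ≥ N`, from `DVal`). If `ρ g`
fixes `u` it preserves `lat O b'` (`fix_iff`), so `c ^ (2 N)` times the entries of the matrix of
`rv F ρ g`, which are the images of the entries of `ρ g`, are in `O`: by `od_bdd` (`x = c ^ (2 N)`) the
entries of `ρ g` are in a fixed finite-dimensional subspace `S` of `R`. So the `K`-spans `S k` of the
matrices `ρ g`, `g ∈ D k`, in `Fin 2 → Fin 2 → S` decrease at most `4 dim S` times, and
`S k = S (k + 1)` gives `D k = D (k + 1)` as there (`K ⊆ O` by `od_cst`).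
-/

namespace Pool.Agent.Lib.SLT

open Pool.Agent.Lib.MP_16fe43_al (BddDrops)

variable {K R F : Type} [Field K] [CommRing R] [IsDomain R] [Algebra K R] [Field F] [Algebra R F]
  [IsFractionRing R F] {d : R → ℕ}

theorem q_du (h : DegFun K R d) {G : Type} [Group G] (ρ : G →* GL (Fin 2) R) (g : G) :
    Du (od h F) (rv F ρ g) := by
  have h1 : ((rv F ρ g : (Fin 2 → F) ≃ₗ[F] (Fin 2 → F)) : (Fin 2 → F) →ₗ[F] (Fin 2 → F)) =
      Matrix.toLin' ((ρ g : Matrix (Fin 2) (Fin 2) R).map (algebraMap R F)) := by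
    refine LinearMap.ext fun v => ?_
    rw [Matrix.toLin'_apply]
    exact rv_apply ρ g v
  have h2 : LinearMap.det ((rv F ρ g : (Fin 2 → F) ≃ₗ[F] (Fin 2 → F)) :
      (Fin 2 → F) →ₗ[F] (Fin 2 → F)) =
      algebraMap R F (Matrix.det (ρ g : Matrix (Fin 2) (Fin 2) R)) := by
    rw [h1, LinearMap.det_toLin', RingHom.map_det, RingHom.mapMatrix_apply]
  obtain ⟨k, hk⟩ := h.unit_const (a := Matrix.det (ρ g : Matrix (Fin 2) (Fin 2) R))
    ((Matrix.isUnit_iff_isUnit_det _).1 (ρ g).isUnit)
  have h3 : (algebraMap R F (algebraMap K R k))⁻¹ = algebraMap R F (algebraMap K R k⁻¹) := by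
    have := map_inv₀ ((algebraMap R F).comp (algebraMap K R)) k
    rw [RingHom.comp_apply, RingHom.comp_apply] at this
    exact this.symm
  unfold Du
  rw [h2, hk, h3]
  exact ⟨od_cst h k, od_cst h k⁻¹⟩

private theorem qd_dim {K W : Type} [Field K] [AddCommGroup W] [Module K W] [Module.Finite K W]
    (S : ℕ → Submodule K W) (hS : ∀ k, S (k + 1) ≤ S k) :
    ∃ k < Module.finrank K W + 1, S k = S (k + 1) := by
  by_contra h
  push Not at h
  have key : ∀ k ≤ Module.finrank K W + 1, Module.finrank K (S k) + k ≤ Module.finrank K W := by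
    intro k
    induction k with
    | zero => intro _; simpa using Submodule.finrank_le (S 0)
    | succ k ih =>
      intro hk
      have h1 := ih (by omega)
      have h2 : S (k + 1) < S k := lt_of_le_of_ne (hS k) (fun h' => h k (by omega) h'.symm)
      have h3 := Submodule.finrank_lt_finrank_of_lt h2
      omega
  have := key (Module.finrank K W + 1) le_rfl
  omega

/-- the linear map with the matrix `w` -/
private noncomputable def qL (F : Type) [Field F] [Algebra R F] {S : Submodule K R}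
    (w : Fin 2 → Fin 2 → S) (v : Fin 2 → F) : Fin 2 → F :=
  fun i => ∑ j, algebraMap R F (w i j : R) * v j

omit [IsDomain R] [IsFractionRing R F] in
private theorem qL_zero {S : Submodule K R} (v : Fin 2 → F) :
    qL F (0 : Fin 2 → Fin 2 → S) v = 0 := by
  funext i
  simp [qL]

omit [IsDomain R] [IsFractionRing R F] in
private theorem qL_add {S : Submodule K R} (w w' : Fin 2 → Fin 2 → S) (v : Fin 2 → F) :
    qL F (w + w') v = qL F w v + qL F w' v := by
  funext i
  simp only [qL, Pi.add_apply, Submodule.coe_add, map_add, add_mul, Finset.sum_add_distrib]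

omit [IsDomain R] [IsFractionRing R F] in
private theorem qL_smul {S : Submodule K R} (c : K) (w : Fin 2 → Fin 2 → S) (v : Fin 2 → F) :
    qL F (c • w) v = algebraMap R F (algebraMap K R c) • qL F w v := by
  funext i
  have h1 : ∀ x : S, algebraMap R F ((c • x : S) : R) =
      algebraMap R F (algebraMap K R c) * algebraMap R F (x : R) := fun x => by
    rw [Submodule.coe_smul, Algebra.smul_def, map_mul]
  simp only [qL, Pi.smul_apply, h1, smul_eq_mul, Finset.mul_sum, mul_assoc]

omit [IsDomain R] [IsFractionRing R F] in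
private theorem qL_eq {S : Submodule K R} {G : Type} [Group G] (ρ : G →* GL (Fin 2) R) (g : G)
    (w : Fin 2 → Fin 2 → S)
    (h : ∀ i j, (ρ g : Matrix (Fin 2) (Fin 2) R) i j = (w i j : R)) (v : Fin 2 → F) :
    qL F w v = rv F ρ g v := by
  rw [rv_apply]
  funext i
  simp only [qL, Matrix.mulVec, dotProduct, Matrix.map_apply, h]

private theorem qd_scale {O : Subring F} {c : Fˣ} (hO : DVal O c) (x : F) :
    ∃ N : ℕ, ∀ n ≥ N, (c : F) ^ n * x ∈ O := by
  by_cases hx : x = 0
  · exact ⟨0, fun n _ => by rw [hx, mul_zero]; exact O.zero_mem⟩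
  obtain ⟨m, u, hu, _, _, rfl⟩ := hO.fac x hx
  refine ⟨(-m).toNat, fun n hn => ?_⟩
  have hc0 : (c : F) ≠ 0 := c.ne_zero
  have h1 : (c : F) ^ n * (u * (c : F) ^ m) = u * (c : F) ^ ((n : ℤ) + m) := by
    rw [zpow_add₀ hc0, zpow_natCast]
    ring
  rw [h1]
  refine O.mul_mem hu ((hO.pow_mem _).2 ?_)
  omega

theorem q_drops (h : DegFun K R d) {c : Fˣ} (hO : DVal (od h F) c) {G : Type} [Group G]
    (ρ : G →* GL (Fin 2) R) (Rg : Subgroup G → Prop) :
    letI : MulAction G (BT (od h F) (Fin 2 → F)) :=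
      MulAction.compHom (BT (od h F) (Fin 2 → F)) (rv F ρ)
    BddDrops G (btG (od h F) c (Fin 2 → F)) Rg := by
  letI : MulAction G (BT (od h F) (Fin 2 → F)) :=
    MulAction.compHom (BT (od h F) (Fin 2 → F)) (rv F ρ)
  have hDu : ∀ g, Du (od h F) (rv F ρ g) := fun g => q_du h ρ g
  have hT : Pool.Agent.Lib.MP_16fe43_al.TAct G (btG (od h F) c (Fin 2 → F)) :=
    bt_tact hO (Pi.basisFun F (Fin 2)) (rv F ρ) hDu
  have hsm : ∀ (g : G) (x : BT (od h F) (Fin 2 → F)), g • x = rv F ρ g • x := fun g x => rfl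
  intro u v huv
  obtain ⟨b', rfl⟩ := exists_mk (od h F) u
  -- the scaling
  have hscale : ∃ N : ℕ, (∀ i j : Fin 2, (c : F) ^ N * b'.repr (Pi.single j 1) i ∈ od h F) ∧
      (∀ i j : Fin 2, (c : F) ^ N * b' j i ∈ od h F) := by
    choose N1 hN1 using fun i j : Fin 2 => qd_scale hO (b'.repr (Pi.single j 1) i)
    choose N2 hN2 using fun i j : Fin 2 => qd_scale hO (b' j i)
    refine ⟨(Finset.univ.sup fun p : Fin 2 × Fin 2 => N1 p.1 p.2) +
      (Finset.univ.sup fun p : Fin 2 × Fin 2 => N2 p.1 p.2), fun i j => hN1 i j _ ?_,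
      fun i j => hN2 i j _ ?_⟩
    · exact (Finset.le_sup (f := fun p : Fin 2 × Fin 2 => N1 p.1 p.2)
        (Finset.mem_univ (i, j))).trans (Nat.le_add_right _ _)
    · exact (Finset.le_sup (f := fun p : Fin 2 × Fin 2 => N2 p.1 p.2)
        (Finset.mem_univ (i, j))).trans (Nat.le_add_left _ _)
  obtain ⟨N, hN1, hN2⟩ := hscale
  have hc0 : (c : F) ≠ 0 := c.ne_zero
  obtain ⟨S0, hS0, hS0'⟩ := od_bdd (F := F) h (x := (c : F) ^ N * (c : F) ^ N)
    (mul_ne_zero (pow_ne_zero _ hc0) (pow_ne_zero _ hc0))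
  haveI : Module.Finite K S0 := Module.Finite.iff_fg.2 hS0
  refine ⟨Module.finrank K (Fin 2 → Fin 2 → S0) + 1, fun α β hinc hα hβ _ => ?_⟩
  set D : ℕ → Subgroup G := fun k => MulAction.stabilizer G (α k) ⊓ MulAction.stabilizer G (β k)
    with hD
  have hDle : ∀ k, D (k + 1) ≤ D k := by
    intro k
    have h1 := hinc k
    have t1 := hT.tree.connected.dist_triangle (u := α k) (v := β k) (w := β (k + 1))
    have t2 := hT.tree.connected.dist_triangle (u := α (k + 1)) (v := α k) (w := β (k + 1))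
    have t3 := hT.tree.connected.dist_triangle (u := α (k + 1)) (v := α k) (w := β k)
    have t4 := hT.tree.connected.dist_triangle (u := α (k + 1)) (v := β k) (w := β (k + 1))
    refine le_inf ?_ ?_
    · refine Pool.Agent.Lib.MP_16fe43_al.stab_between hT ?_
      omega
    · refine Pool.Agent.Lib.MP_16fe43_al.stab_between hT ?_
      omega
  have hD0 : ∀ k, D k ≤ D 0 := by
    intro k
    induction k with
    | zero => exact le_rfl
    | succ k ih => exact (hDle k).trans ih
  -- the matrices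
  have hmat : ∀ k, ∀ g ∈ D k, ∃ w : Fin 2 → Fin 2 → S0,
      ∀ i j, (ρ g : Matrix (Fin 2) (Fin 2) R) i j = (w i j : R) := by
    intro k g hg
    have h0 : g • mk (od h F) b' = mk (od h F) b' := by
      have := (Subgroup.mem_inf.1 (hD0 k hg)).1
      rw [hα] at this
      exact MulAction.mem_stabilizer_iff.1 this
    rw [hsm] at h0
    have h1 := (fix_iff hO (rv F ρ g) (hDu g) _).1 h0
    have h2 : ∀ i j, (ρ g : Matrix (Fin 2) (Fin 2) R) i j ∈ S0 := by
      intro i j
      refine hS0' _ ?_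
      have h3 : (c : F) ^ N • (Pi.single j 1 : Fin 2 → F) ∈ lat (od h F) b' := by
        rw [mem_lat_iff]
        intro l
        rw [map_smul, Finsupp.smul_apply, smul_eq_mul]
        exact hN1 l j
      have h4 := (mem_lat_iff (od h F) b' _).1 ((h1 _).2 h3)
      have h5 : (c : F) ^ N * (rv F ρ g ((c : F) ^ N • (Pi.single j 1 : Fin 2 → F))) i =
          ∑ l, b'.repr (rv F ρ g ((c : F) ^ N • (Pi.single j 1 : Fin 2 → F))) l *
            ((c : F) ^ N * b' l i) := by
        conv_lhs => rw [← b'.sum_repr (rv F ρ g ((c : F) ^ N • (Pi.single j 1 : Fin 2 → F)))]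
        rw [Finset.sum_apply, Finset.mul_sum]
        refine Finset.sum_congr rfl fun l _ => ?_
        rw [Pi.smul_apply, smul_eq_mul]
        ring
      have h6 : (c : F) ^ N * (rv F ρ g ((c : F) ^ N • (Pi.single j 1 : Fin 2 → F))) i ∈
          od h F := by
        rw [h5]
        exact Subring.sum_mem _ fun l _ => (od h F).mul_mem (h4 l) (hN2 i l)
      have h7 : (rv F ρ g ((c : F) ^ N • (Pi.single j 1 : Fin 2 → F))) i =
          (c : F) ^ N * algebraMap R F ((ρ g : Matrix (Fin 2) (Fin 2) R) i j) := by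
        rw [map_smul, Pi.smul_apply, smul_eq_mul, rv_apply, Matrix.mulVec_single_one]
        rfl
      rw [h7, ← mul_assoc] at h6
      exact h6
    exact ⟨fun i j => ⟨_, h2 i j⟩, fun i j => rfl⟩
  let S : ℕ → Submodule K (Fin 2 → Fin 2 → S0) := fun k =>
    Submodule.span K {w | ∃ g ∈ D k, ∀ i j, (ρ g : Matrix (Fin 2) (Fin 2) R) i j = (w i j : R)}
  have hS : ∀ k, S (k + 1) ≤ S k := by
    intro k
    refine Submodule.span_mono ?_
    rintro w ⟨g, hg, h⟩
    exact ⟨g, hDle k hg, h⟩
  obtain ⟨k, hk, hkS⟩ := qd_dim S hS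
  refine ⟨k, hk, ?_⟩
  change D k = D (k + 1)
  refine le_antisymm ?_ (hDle k)
  -- the elements of `D k` map the lattices into themselves
  have hmap : ∀ e : Bs F (Fin 2 → F), (∀ g ∈ D (k + 1), g • mk (od h F) e = mk (od h F) e) →
      ∀ g ∈ D k, ∀ v ∈ lat (od h F) e, rv F ρ g v ∈ lat (od h F) e := by
    intro e he g hg v hv
    obtain ⟨w, hw⟩ := hmat k g hg
    have hwS : w ∈ S (k + 1) := by
      rw [← hkS]
      exact Submodule.subset_span ⟨g, hg, hw⟩
    rw [← qL_eq ρ g w hw v]
    have : ∀ w ∈ S (k + 1), qL F w v ∈ lat (od h F) e := by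
      intro w hw
      induction hw using Submodule.span_induction with
      | mem x hx =>
        obtain ⟨g', hg', hx⟩ := hx
        rw [qL_eq ρ g' x hx v]
        have h1 := he g' hg'
        rw [hsm] at h1
        exact ((fix_iff hO (rv F ρ g') (hDu g') e).1 h1 v).2 hv
      | zero => rw [qL_zero]; exact Submodule.zero_mem _
      | add x y _ _ hx hy => rw [qL_add]; exact Submodule.add_mem _ hx hy
      | smul r x _ hx =>
        rw [qL_smul]
        exact Submodule.smul_mem (lat (od h F) e) (⟨_, od_cst h r⟩ : od h F) hx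
    exact this w hwS
  have hfix : ∀ x : BT (od h F) (Fin 2 → F), (∀ g ∈ D (k + 1), g • x = x) →
      ∀ g ∈ D k, g • x = x := by
    intro x hx g hg
    obtain ⟨e, rfl⟩ := exists_mk (od h F) x
    rw [hsm]
    refine (fix_iff hO (rv F ρ g) (hDu g) e).2 fun v =>
      ⟨fun h => ?_, fun h => hmap e hx g hg v h⟩
    have h1 := hmap e hx g⁻¹ ((D k).inv_mem hg) _ h
    have h2 : rv F ρ g⁻¹ (rv F ρ g v) = v := by
      rw [← LinearEquiv.mul_apply, ← map_mul, inv_mul_cancel, map_one, LinearEquiv.coe_one, id]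
    rwa [h2] at h1
  intro g hg
  refine Subgroup.mem_inf.2 ⟨?_, ?_⟩
  · exact MulAction.mem_stabilizer_iff.2 (hfix (α (k + 1))
      (fun g' hg' => MulAction.mem_stabilizer_iff.1 (Subgroup.mem_inf.1 hg').1) g hg)
  · exact MulAction.mem_stabilizer_iff.2 (hfix (β (k + 1))
      (fun g' hg' => MulAction.mem_stabilizer_iff.1 (Subgroup.mem_inf.1 hg').2) g hg)

end Pool.Agent.Lib.SLT
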