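import Pool.Agent.Lib.SLT.CDefs

set_option autoImplicit false

/-!
# QQun: torsion-free groups of quasi-unipotent matrices are commutative

PROOF. `disc A = tr A ^ 2 - 4 det A`.
Characteristic `p > 0` of `F` (`ringChar`, `expChar`): `(A ^ m - 1) ^ 2 = 0` gives
`A ^ (m p) - 1 = (A ^ m - 1) ^ p = 0` (`sub_pow_char` in the commutative ring generated by `A`, or
`Commute.sub_pow_char`; `p ≥ 2`), so `g ^ (m p) = 1`, `g = 1`.
Characteristic 0. (1) `disc A = 0` for `A = ρ g`: `N = A ^ m - 1`, `N ^ 2 = 0`, `A N = N A`. If `N = 0` then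
`g ^ m = 1`, `g = 1`, `A = 1`. Otherwise `N = (x y; z -x)`, `x² + y z = 0` (trace and determinant of `N`
are `0`), `A = (p q; r s)`: `q z = y r`, `y (p - s) = 2 x q`, `z (p - s) = 2 x r`, so
`y² ((p - s)² + 4 q r) = 4 x² q² + 4 y² q r = - 4 y z q² + 4 y² q r = - 4 y q (z q - y r) = 0`, in the same way
`z² ((p - s)² + 4 q r) = 0`, and `y = z = 0` gives `x = 0`, `N = 0`.
(2) Let `A = ρ g`, `B = ρ h`. If `A` is scalar they commute. Otherwise `α = tr A / 2`,
`det A = α² ≠ 0`, `E = α⁻¹ A - 1 ≠ 0`, `E² = 0` (Cayley-Hamilton), `tr E = 0`. Let `t = tr B`,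
`x = tr (E B)`. `disc (A B) = 0` is `(t + x)² = 4 det B = t²`; `disc (A² B) = 0` with `A² = α² (1 + 2 E)` is
`(t + 2 x)² = t²`. So `x (2 t + x) = 0`, `x (t + x) = 0`, hence `x = 0` (otherwise `t = 0`, `x = 0`).
(3) `E = (x y; z -x)`, `x² + y z = 0`, `B = (p q; r s)`, `u = p - s`, `u² + 4 q r = 0`,
`x u + y r + z q = 0`. Then `(q z - y r)² = (q z + y r)² - 4 q r y z = x² u² - x² u² = 0`,
`(y u - 2 x q)² = - 4 y q (y r + x u + z q) = 0`, `(z u - 2 x r)² = - 4 z r (z q + x u + y r) = 0`, which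
means `E B = B E`.
-/

namespace Pool.Agent.Lib.SLT

open Pool.Agent.Lib.BHS16 (TorsionFree)

private theorem qq_char {F : Type} [Field F] (p : ℕ) [Fact p.Prime] [CharP F p]
    (A : Matrix (Fin 2) (Fin 2) F) (m : ℕ) (h : (A ^ m - 1) ^ 2 = 0) : A ^ (m * p) = 1 := by
  have hp : 2 ≤ p := (Fact.out : p.Prime).two_le
  have h1 : (A ^ m - 1) ^ p = 0 := by
    obtain ⟨k, rfl⟩ := Nat.exists_eq_add_of_le hp
    rw [pow_add, h, zero_mul]
  have h2 : (A ^ m - 1) ^ p = (A ^ m) ^ p - 1 ^ p :=
    sub_pow_char_of_commute _ (Commute.one_right _)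
  rw [h1, one_pow, ← pow_mul] at h2
  exact (sub_eq_zero.mp h2.symm)

private theorem qq_disc {F : Type} [Field F] (A N : Matrix (Fin 2) (Fin 2) F)
    (hN : N ^ 2 = 0) (h0 : N ≠ 0) (hc : A * N = N * A) :
    (A 0 0 - A 1 1) ^ 2 + 4 * A 0 1 * A 1 0 = 0 := by
  have e (i j : Fin 2) : (N ^ 2) i j = 0 := by rw [hN]; rfl
  have c (i j : Fin 2) : (A * N) i j = (N * A) i j := by rw [hc]
  have e00 := e 0 0
  have e01 := e 0 1
  have e10 := e 1 0
  have e11 := e 1 1
  have c00 := c 0 0
  have c01 := c 0 1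
  have c10 := c 1 0
  simp only [sq, Matrix.mul_apply, Fin.sum_univ_two] at e00 e01 e10 e11 c00 c01 c10
  generalize A 0 0 = p at *
  generalize A 0 1 = q at *
  generalize A 1 0 = r at *
  generalize A 1 1 = s at *
  have hne : ¬ (N 0 0 = 0 ∧ N 0 1 = 0 ∧ N 1 0 = 0 ∧ N 1 1 = 0) := by
    rintro ⟨a1, a2, a3, a4⟩
    apply h0
    ext i j
    fin_cases i <;> fin_cases j <;> simp [a1, a2, a3, a4]
  generalize N 0 0 = x at *
  generalize N 0 1 = y at *
  generalize N 1 0 = z at *
  generalize N 1 1 = w at *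
  have hw : x + w = 0 := by
    by_contra hw
    have hy : y = 0 := by
      have : y * (x + w) = 0 := by linear_combination e01
      exact (mul_eq_zero.mp this).resolve_right hw
    have hz : z = 0 := by
      have : z * (x + w) = 0 := by linear_combination e10
      exact (mul_eq_zero.mp this).resolve_right hw
    subst hy hz
    have hx : x = 0 := by
      have : x * x = 0 := by linear_combination e00
      exact mul_self_eq_zero.mp this
    have hww : w = 0 := by
      have : w * w = 0 := by linear_combination e11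
      exact mul_self_eq_zero.mp this
    exact hw (by rw [hx, hww, add_zero])
  obtain rfl : w = -x := by linear_combination hw
  have k1 : q * z = y * r := by linear_combination c00
  have k2 : y * (p - s) = 2 * x * q := by linear_combination c01
  have k3 : z * (p - s) = 2 * x * r := by linear_combination -c10
  have k4 : x ^ 2 = - (y * z) := by linear_combination e00
  have l1 : y ^ 2 * ((p - s) ^ 2 + 4 * q * r) = 0 := by
    linear_combination (y * (p - s) + 2 * x * q) * k2 + 4 * q ^ 2 * k4 - 4 * y * q * k1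
  have l2 : z ^ 2 * ((p - s) ^ 2 + 4 * q * r) = 0 := by
    linear_combination (z * (p - s) + 2 * x * r) * k3 + 4 * r ^ 2 * k4 + 4 * z * r * k1
  by_contra hh
  have hy : y = 0 := by
    have := (mul_eq_zero.mp l1).resolve_right hh
    exact pow_eq_zero_iff (two_ne_zero) |>.mp this
  have hz : z = 0 := by
    have := (mul_eq_zero.mp l2).resolve_right hh
    exact pow_eq_zero_iff (two_ne_zero) |>.mp this
  have hx : x = 0 := by
    rw [hy, zero_mul, neg_zero] at k4
    exact pow_eq_zero_iff (two_ne_zero) |>.mp k4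
  exact hne ⟨hx, hy, hz, by rw [hx, neg_zero]⟩

private theorem qq_comm {F : Type} [Field F] [CharZero F] (a b c d p q r s : F)
    (hA : (a - d) ^ 2 + 4 * b * c = 0) (hB : (p - s) ^ 2 + 4 * q * r = 0)
    (hd : a * d - b * c ≠ 0)
    (h1 : (a * p + b * r + (c * q + d * s)) ^ 2 = 4 * ((a * d - b * c) * (p * s - q * r)))
    (h2 : ((a * a + b * c) * p + (a * b + b * d) * r + ((c * a + d * c) * q + (c * b + d * d) * s)) ^ 2
      = 4 * ((a * d - b * c) ^ 2 * (p * s - q * r))) :
    b * r = q * c ∧ (a - d) * q = b * (p - s) ∧ (a - d) * r = c * (p - s) := by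
  -- α = (a + d) / 2, e = (a - d) / 2
  obtain ⟨α, x, rfl, rfl⟩ : ∃ α x : F, a = α + x ∧ d = α - x :=
    ⟨(a + d) / 2, (a - d) / 2, by ring, by ring⟩
  have t2 : (2 : F) ≠ 0 := two_ne_zero
  have t4 : (4 : F) ≠ 0 := by norm_num
  have k : x ^ 2 + b * c = 0 := by
    have : 4 * (x ^ 2 + b * c) = 0 := by linear_combination hA
    exact (mul_eq_zero.mp this).resolve_left t4
  have hα : α ≠ 0 := by
    rintro rfl
    apply hd
    linear_combination -k
  -- X = tr (E B)
  obtain ⟨X, hX⟩ : ∃ X, X = x * (p - s) + b * r + c * q := ⟨_, rfl⟩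
  obtain ⟨t, ht⟩ : ∃ t, t = p + s := ⟨_, rfl⟩
  have hdet : 4 * (p * s - q * r) = t ^ 2 := by rw [ht]; linear_combination -hB
  have m1 : X * (2 * α * t + X) = 0 := by
    rw [hX, ht]
    linear_combination h1 - 4 * (p * s - q * r) * k - α ^ 2 * hB
  have m2 : X * (α * t + X) = 0 := by
    have : 4 * α ^ 2 * (X * (α * t + X)) = 0 := by
      rw [hX, ht]
      linear_combination h2 - (p + s) * (2 * (α ^ 2 * (p + s) + 2 * α * (x * (p - s) + b * r + c * q) +
        (x ^ 2 + b * c) * (p + s)) - (x ^ 2 + b * c) * (p + s)) * k +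
        4 * (p * s - q * r) * ((x ^ 2 + b * c) - 2 * α ^ 2) * k - α ^ 4 * hB
    exact (mul_eq_zero.mp this).resolve_left (mul_ne_zero t4 (pow_ne_zero 2 hα))
  have hX0 : X = 0 := by
    by_contra h0
    have n1 := (mul_eq_zero.mp m1).resolve_left h0
    have n2 := (mul_eq_zero.mp m2).resolve_left h0
    have n3 : α * t = 0 := by linear_combination n1 - n2
    exact h0 (by linear_combination n2 - n3)
  have hX1 : x * (p - s) + b * r + c * q = 0 := by rw [← hX, hX0]
  have u1 : (q * c - b * r) ^ 2 = 0 := by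
    linear_combination (q * c + b * r - x * (p - s)) * hX1 + (p - s) ^ 2 * k - b * c * hB
  have u2 : (b * (p - s) - 2 * x * q) ^ 2 = 0 := by
    linear_combination b ^ 2 * hB + 4 * q ^ 2 * k - 4 * b * q * hX1
  have u3 : (c * (p - s) - 2 * x * r) ^ 2 = 0 := by
    linear_combination c ^ 2 * hB + 4 * r ^ 2 * k - 4 * c * r * hX1
  have v1 := pow_eq_zero_iff (two_ne_zero) |>.mp u1
  have v2 := pow_eq_zero_iff (two_ne_zero) |>.mp u2
  have v3 := pow_eq_zero_iff (two_ne_zero) |>.mp u3
  exact ⟨by linear_combination -v1, by linear_combination -v2, by linear_combination -v3⟩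

theorem qu_comm {F : Type} [Field F] {S : Type} [Group S] (tf : TorsionFree S)
    (ρ : S →* GL (Fin 2) F) (hρ : Function.Injective ρ)
    (h : ∀ g : S, ∃ m : ℕ, 0 < m ∧ ((ρ g : Matrix (Fin 2) (Fin 2) F) ^ m - 1) ^ 2 = 0) :
    ∀ g g' : S, g * g' = g' * g := by
  have key (g : S) (n : ℕ) (hn : 0 < n) (h1 : (ρ g : Matrix (Fin 2) (Fin 2) F) ^ n = 1) : g = 1 := by
    apply tf
    rw [isOfFinOrder_iff_pow_eq_one]
    refine ⟨n, hn, hρ ?_⟩
    rw [map_pow, map_one]
    ext i j
    rw [Units.val_pow_eq_pow_val, h1, Units.val_one]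
  rcases CharP.exists' F with h0 | ⟨p, hp, hc⟩
  · -- characteristic zero
    have disc (g : S) : ((ρ g : Matrix (Fin 2) (Fin 2) F) 0 0 - (ρ g : Matrix (Fin 2) (Fin 2) F) 1 1) ^ 2
        + 4 * (ρ g : Matrix (Fin 2) (Fin 2) F) 0 1 * (ρ g : Matrix (Fin 2) (Fin 2) F) 1 0 = 0 := by
      obtain ⟨m, hm, h2⟩ := h g
      by_cases hN : (ρ g : Matrix (Fin 2) (Fin 2) F) ^ m - 1 = 0
      · have := key g m hm (sub_eq_zero.mp hN)
        subst this
        simp
      · refine qq_disc _ _ h2 hN ?_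
        rw [mul_sub, sub_mul, mul_one, one_mul, ← pow_succ, ← pow_succ']
    intro g g'
    apply hρ
    have d1 := disc g
    have d2 := disc g'
    have d3 := disc (g * g')
    have d4 := disc (g * g * g')
    have hd : (ρ g : Matrix (Fin 2) (Fin 2) F).det ≠ 0 := by
      have := (ρ g).isUnit
      rw [Matrix.isUnit_iff_isUnit_det] at this
      exact this.ne_zero
    rw [Matrix.det_fin_two] at hd
    simp only [map_mul, Units.val_mul, Matrix.mul_apply, Fin.sum_univ_two] at d3 d4
    obtain ⟨w1, w2, w3⟩ := qq_comm ((ρ g : Matrix (Fin 2) (Fin 2) F) 0 0)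
      ((ρ g : Matrix (Fin 2) (Fin 2) F) 0 1) ((ρ g : Matrix (Fin 2) (Fin 2) F) 1 0)
      ((ρ g : Matrix (Fin 2) (Fin 2) F) 1 1) ((ρ g' : Matrix (Fin 2) (Fin 2) F) 0 0)
      ((ρ g' : Matrix (Fin 2) (Fin 2) F) 0 1) ((ρ g' : Matrix (Fin 2) (Fin 2) F) 1 0)
      ((ρ g' : Matrix (Fin 2) (Fin 2) F) 1 1) d1 d2 hd
      (by linear_combination d3) (by linear_combination d4)
    apply Units.ext
    ext i j
    fin_cases i <;> fin_cases j <;>
      simp only [map_mul, Units.val_mul, Matrix.mul_apply, Fin.sum_univ_two, Fin.zero_eta, Fin.mk_one,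
        Fin.isValue]
    · linear_combination w1
    · linear_combination w2
    · linear_combination -w3
    · linear_combination -w1
  · -- positive characteristic
    have all (g : S) : g = 1 := by
      obtain ⟨m, hm, h2⟩ := h g
      have := hp
      have := hc
      exact key g (m * p) (Nat.mul_pos hm hp.out.pos) (qq_char p _ m h2)
    intro g g'
    rw [all g, all g']

end Pool.Agent.Lib.SLT
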