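import Pool.Agent.Lib.SLT.QCore
import Pool.Agent.Lib.SLT.QQun
import Pool.Agent.Lib.SLT.FAct

set_option autoImplicit false

/-!
# QTree: groups acting on a second tree

`QUn A`: the matrix `A` over `B` is quasi-unipotent.
PROOF of `qun_lift`: `ε` composed with the quotient map to `B / 𝔪`, `𝔪` a maximal ideal, so we may assume
that `B` is a field. `M = A ^ m`, `(ε M - 1) ^ 2 = 0`: `ε M - 1` is a nilpotent `2 × 2` matrix over a field,
so its trace and determinant are `0`: `tr (ε M) = 2`, `det (ε M) = 1`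
(`det (1 + N) = 1 + tr N + det N`). The trace `t` and the determinant of `M` are constants, and
`ε ∘ algebraMap K R` is injective (`K` a field), so `t = 2`, `det M = 1`, and `(M - 1) ^ 2 = 0` by
Cayley-Hamilton (`Matrix.ext`, `Matrix.det_fin_two`, `linear_combination`).
PROOF of `q_tree`. By `q_core` let `H ≤ G` with `TrC K`. `H` acts on `X`; `TAct H T` (fields `tree`,
`adj`, `noinv`). Let `x : X`, `S = stabilizer H x`. By `qun_lift` (the determinants are units of `R`:
`h.unit_const`; the trace of `ρ g ^ m = ρ (g ^ m)` is constant as `g ^ m ∈ H`) all `ρ g`, `g ∈ S`, are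
quasi-unipotent over `R`, so over `F = FractionRing R`: `qu_comm`: `S` is commutative; `stReg_comm`,
`stV_comm`. Edge groups: subgroups of `S`. `tree_long` with `n = 1` gives `StV H`.
PROOF of `q_tree_int`: `farey σ`; if `g` fixes `v` then `σ g` has finite order (the stabilizer is a group,
its image under `σ` is finite), so `(σ g) ^ m = 1` with `m > 0`, so `ε (ρ g) ^ m = 1`.
-/

namespace Pool.Agent.Lib.SLT

open Pool.Agent.Lib.MP_16fe43_al (StV StReg TAct tree_long)
open Pool.Agent.Lib.BHS16 (TorsionFree)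

/-- `A` is quasi-unipotent: some power `A ^ m`, `m > 0`, is unipotent -/
def QUn {B : Type} [CommRing B] (A : Matrix (Fin 2) (Fin 2) B) : Prop :=
  ∃ m : ℕ, 0 < m ∧ (A ^ m - 1) ^ 2 = 0

private theorem QTree_nil {F : Type} [Field F] {M : Matrix (Fin 2) (Fin 2) F}
    (h : (M - 1) ^ 2 = 0) : Matrix.trace M = 2 ∧ Matrix.det M = 1 := by
  have h00 := congrFun (congrFun h 0) 0
  have h01 := congrFun (congrFun h 0) 1
  have h10 := congrFun (congrFun h 1) 0
  have h11 := congrFun (congrFun h 1) 1
  simp only [pow_two, Matrix.mul_apply, Fin.sum_univ_two, Matrix.sub_apply, Matrix.one_apply_eq,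
    Matrix.zero_apply, Matrix.one_apply_ne (show (0 : Fin 2) ≠ 1 by decide),
    Matrix.one_apply_ne (show (1 : Fin 2) ≠ 0 by decide), sub_zero] at h00 h01 h10 h11
  have hd : ((M 0 0 - 1) * (M 1 1 - 1) - M 0 1 * M 1 0) = 0 := by
    have h2 : ((M 0 0 - 1) * (M 1 1 - 1) - M 0 1 * M 1 0) ^ 2 = 0 := by
      linear_combination (M 1 1 - 1) ^ 2 * h00 + M 0 1 * M 1 0 * h11
        - M 0 1 * (M 1 1 - 1) * h10 - M 0 1 * (M 1 1 - 1) * h10
    exact pow_eq_zero_iff (two_ne_zero) |>.1 h2
  have htr : (M 0 0 - 1) + (M 1 1 - 1) = 0 := by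
    have h2 : ((M 0 0 - 1) + (M 1 1 - 1)) ^ 2 = 0 := by
      linear_combination h00 + h11 + 2 * hd
    exact pow_eq_zero_iff (two_ne_zero) |>.1 h2
  constructor
  · rw [Matrix.trace_fin_two]
    linear_combination htr
  · rw [Matrix.det_fin_two]
    linear_combination hd + htr

private theorem QTree_ch {R : Type} [CommRing R] (M : Matrix (Fin 2) (Fin 2) R)
    (ht : M 0 0 + M 1 1 = 2) (hd : M 0 0 * M 1 1 - M 0 1 * M 1 0 = 1) : (M - 1) ^ 2 = 0 := by
  ext i j
  fin_cases i <;> fin_cases j <;>
    simp only [pow_two, Matrix.mul_apply, Fin.sum_univ_two, Matrix.sub_apply, Matrix.one_apply_eq,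
      Matrix.zero_apply, Matrix.one_apply_ne (show (0 : Fin 2) ≠ 1 by decide),
      Matrix.one_apply_ne (show (1 : Fin 2) ≠ 0 by decide), sub_zero, Fin.zero_eta, Fin.mk_one]
  · linear_combination M 0 0 * ht - hd
  · linear_combination M 0 1 * ht
  · linear_combination M 1 0 * ht
  · linear_combination M 1 1 * ht - hd

theorem qun_lift {K R B : Type} [Field K] [CommRing R] [Algebra K R] [CommRing B] [Nontrivial B]
    (ε : R →+* B) (A : Matrix (Fin 2) (Fin 2) R)
    (ht : ∀ m : ℕ, ∃ k : K, Matrix.trace (A ^ m) = algebraMap K R k)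
    (hd : ∀ m : ℕ, ∃ k : K, Matrix.det (A ^ m) = algebraMap K R k)
    (h : QUn (A.map ε)) : QUn A := by
  obtain ⟨m, hm, hA⟩ := h
  refine ⟨m, hm, ?_⟩
  obtain ⟨I, hI⟩ := Ideal.exists_maximal B
  obtain ⟨t, ht⟩ := ht m
  obtain ⟨e, he⟩ := hd m
  let fI : Field (B ⧸ I) := Ideal.Quotient.field I
  let ε' : R →+* B ⧸ I := (Ideal.Quotient.mk I).comp ε
  have h1 : (A ^ m).map ε = (A.map ε) ^ m := by
    have := map_pow ε.mapMatrix A m
    simpa [RingHom.mapMatrix_apply] using this
  have h2 : ((A ^ m).map ε' - 1) ^ 2 = 0 := by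
    have h3 : ((A ^ m).map ε').map id = ((A ^ m).map ε).map (Ideal.Quotient.mk I) := by
      ext i j
      rfl
    have h4 : (A ^ m).map ε' - 1 = (Ideal.Quotient.mk I).mapMatrix ((A.map ε) ^ m - 1) := by
      rw [map_sub, map_one, ← h1]
      rfl
    rw [h4, ← map_pow, hA, map_zero]
  obtain ⟨h5, h6⟩ := QTree_nil h2
  have hK : Function.Injective (ε'.comp (algebraMap K R)) := RingHom.injective _
  have h7 : ε' (Matrix.trace (A ^ m)) = 2 := by
    rw [← h5, Matrix.trace_fin_two, Matrix.trace_fin_two, map_add]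
    rfl
  have h8 : ε' (Matrix.det (A ^ m)) = 1 := by
    rw [← h6, RingHom.map_det]
    rfl
  have h9 : t = 2 := by
    apply hK
    rw [RingHom.comp_apply, ← ht, h7, map_ofNat]
  have h10 : e = 1 := by
    apply hK
    rw [RingHom.comp_apply, ← he, h8, map_one]
  rw [h9, map_ofNat, Matrix.trace_fin_two] at ht
  rw [h10, map_one, Matrix.det_fin_two] at he
  exact QTree_ch _ ht he

theorem q_tree {K R B : Type} [Field K] [CommRing R] [IsDomain R] [Algebra K R] {d : R → ℕ}
    (h : DegFun K R d) [CommRing B] [Nontrivial B] (ε : R →+* B) {G : Type} [Group G]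
    (tf : TorsionFree G) (ρ : G →* GL (Fin 2) R) (hρ : Function.Injective ρ) {X : Type}
    [MulAction G X] {T : SimpleGraph X} (hT : TAct G T)
    (hX : ∀ (g : G) (x : X), g • x = x → QUn ((ρ g : Matrix (Fin 2) (Fin 2) R).map ε)) :
    StV G := by
  refine q_core h tf ρ hρ fun H hH => ?_
  have hT' : TAct H T := ⟨hT.tree, fun g u v huv => hT.adj (g : G) u v huv,
    fun g u v huv => hT.noinv (g : G) u v huv⟩
  have key : ∀ (x : X) (S : Subgroup H), S ≤ MulAction.stabilizer H x → StReg S ∧ StV S := by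
    intro x S hS
    have hinj : Function.Injective (H.subtype.comp S.subtype) :=
      H.subtype_injective.comp S.subtype_injective
    have tfS : TorsionFree S := tf.of_injective (H.subtype.comp S.subtype) hinj
    have hq : ∀ g : S, QUn (ρ ((g : H) : G) : Matrix (Fin 2) (Fin 2) R) := by
      intro g
      refine qun_lift (K := K) ε _ (fun m => ?_) (fun m => ?_)
        (hX ((g : H) : G) x (hS g.2))
      · obtain ⟨k, hk⟩ := hH ((g : H) ^ m)
        refine ⟨k, ?_⟩
        rw [← hk]
        simp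
      · have hu : IsUnit (Matrix.det ((ρ ((g : H) : G) : Matrix (Fin 2) (Fin 2) R) ^ m)) := by
          rw [Matrix.det_pow]
          exact IsUnit.pow m ((Matrix.isUnit_iff_isUnit_det _).1 (ρ ((g : H) : G)).isUnit)
        exact h.unit_const hu
    have hc : ∀ g g' : S, g * g' = g' * g := by
      refine qu_comm (F := FractionRing R) tfS
        ((Matrix.GeneralLinearGroup.map (algebraMap R (FractionRing R))).comp
          (ρ.comp (H.subtype.comp S.subtype))) ?_ ?_
      · intro a b hab
        apply hinj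
        apply hρ
        apply Units.ext
        have h1 : (ρ ((a : H) : G) : Matrix (Fin 2) (Fin 2) R).map
            (algebraMap R (FractionRing R)) =
            (ρ ((b : H) : G) : Matrix (Fin 2) (Fin 2) R).map (algebraMap R (FractionRing R)) :=
          congrArg (fun u : GL (Fin 2) (FractionRing R) =>
            (u : Matrix (Fin 2) (Fin 2) (FractionRing R))) hab
        exact Matrix.map_injective (IsFractionRing.injective R (FractionRing R)) h1
      · intro g
        obtain ⟨m, hm, h1⟩ := hq g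
        refine ⟨m, hm, ?_⟩
        have h2 := congrArg ((algebraMap R (FractionRing R)).mapMatrix (m := Fin 2)) h1
        rw [map_pow, map_sub, map_pow, map_one, map_zero] at h2
        exact h2
    exact ⟨stReg_comm hc tfS, stV_comm hc tfS⟩
  exact tree_long (n := 1) hT' (fun x y _ => (key x _ inf_le_left).1)
    (fun v => (key v _ le_rfl).2) (fun x y _ k => ((key x _ inf_le_left).2 k).2.1)

theorem q_tree_int {K R B : Type} [Field K] [CommRing R] [IsDomain R] [Algebra K R] {d : R → ℕ}
    (h : DegFun K R d) [CommRing B] [Nontrivial B] (ε : R →+* B) {G : Type} [Group G]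
    (tf : TorsionFree G) (ρ : G →* GL (Fin 2) R) (hρ : Function.Injective ρ)
    (σ : G →* GL (Fin 2) ℤ)
    (hσ : ∀ g : G, (ρ g : Matrix (Fin 2) (Fin 2) R).map ε =
      (σ g : Matrix (Fin 2) (Fin 2) ℤ).map (Int.castRingHom B)) :
    StV G := by
  obtain ⟨V, a, T, hT, hfin, -⟩ := farey σ
  refine q_tree h ε tf ρ hρ hT fun g x hg => ?_
  rw [hσ g]
  have h1 : IsOfFinOrder (σ g) := by
    have h2 : Finite ((MulAction.stabilizer G x).map σ) := by
      have h3 : (((MulAction.stabilizer G x).map σ : Subgroup (GL (Fin 2) ℤ)) :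
          Set (GL (Fin 2) ℤ)).Finite := by
        rw [Subgroup.coe_map]
        exact hfin x
      exact h3
    have h4 : IsOfFinOrder (⟨σ g, Subgroup.mem_map_of_mem σ hg⟩ :
        (MulAction.stabilizer G x).map σ) := isOfFinOrder_of_finite _
    exact (Submonoid.isOfFinOrder_coe (H := ((MulAction.stabilizer G x).map σ).toSubmonoid)
      (x := ⟨σ g, Subgroup.mem_map_of_mem σ hg⟩)).2 h4
  obtain ⟨n, hn, h5⟩ := h1.exists_pow_eq_one
  refine ⟨n, hn, ?_⟩
  have h6 : ((σ g : Matrix (Fin 2) (Fin 2) ℤ)) ^ n = 1 := by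
    rw [← Units.val_pow_eq_pow_val, h5, Units.val_one]
  have h7 := congrArg ((Int.castRingHom B).mapMatrix (m := Fin 2)) h6
  rw [map_pow, map_one] at h7
  have h8 : ((σ g : Matrix (Fin 2) (Fin 2) ℤ).map (Int.castRingHom B)) ^ n = 1 := h7
  rw [h8, sub_self, zero_pow two_ne_zero]

end Pool.Agent.Lib.SLT
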