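import Pool.Agent.Lib.SLT.QCore
import Pool.Agent.Lib.SLT.NBurn
import Pool.Agent.Lib.SLT.GTri

set_option autoImplicit false

/-!
# QTri: groups with constant traces are metabelian or embed by a homomorphism of rings

PROOF of `q_tri`. `F = FractionRing R`, `ρ' = (GL.map (algebraMap R F)).comp ρ`. If `¬ Irr ρ'`, then
either `ρ'(G)` is commutative, so `G` is (injectivity), or there is a common eigenvector `v ≠ 0`:
`rv F ρ g v = α g • v`. Complete `v` to a basis `e` (`e 0 = v`); then
`e.repr (rv F ρ g (e 1)) 1 = β g`; `α`, `β` are homomorphisms to `Fˣ` (`tri_char` in `GTri.lean` does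
this for a subgroup `U`, take `U = ⊤`), so on commutators they are `1`, and two elements with
`α = β = 1` commute (`tri_comm`). So the commutator subgroup is commutative and
`derivedSeries G 2 = ⊥` (`Subgroup.commutator_eq_bot_iff_le_centralizer`; it is contained in
`α.ker ⊓ β.ker`).
If `Irr ρ'`: `burnside` gives `g₀, …, g₃` whose images are a basis of `M₂(F)`. Let `GL.map ε (ρ h) = 1`.
For every `g`: `tr (ρ (g h)) = k`, `tr (ρ g) = k'` are constants with
`ε k = tr (ε (ρ g) ε (ρ h)) = tr (ε (ρ g)) = ε k'`, so `k = k'` (`K` is a field and `B` is not trivial).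
So `tr (A (ρ' h - 1)) = 0` for all `A ∈ M₂(F)`, `ρ' h = 1` (the trace form is nondegenerate:
elementary matrices), `h = 1`.
PROOF of `q_inj`: `q_core`; `H ≤ G` with `TrC`; `q_tri` for `H`.
-/

namespace Pool.Agent.Lib.SLT

open Pool.Agent.Lib.MP_16fe43_al (StV)
open Pool.Agent.Lib.BHS16 (TorsionFree)

/-- a nonzero vector of the plane is the first vector of a basis -/
private theorem qtri_basis {F : Type} [Field F] (v : Fin 2 → F) (hv : v ≠ 0) :
    ∃ e : Bs F (Fin 2 → F), e 0 = v := by
  obtain ⟨w, hw⟩ : ∃ w : Fin 2 → F, LinearIndependent F ![v, w] := by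
    by_contra hcon
    push Not at hcon
    have h1 : ∀ w : Fin 2 → F, ∃ a : F, a • v = w := by
      intro w
      by_contra hw
      push Not at hw
      exact hcon w ((LinearIndependent.pair_iff' hv).2 hw)
    have h2 : Module.finrank F (Fin 2 → F) ≤ 1 := finrank_le_one v h1
    rw [Module.finrank_fin_fun] at h2
    omega
  refine ⟨basisOfLinearIndependentOfCardEqFinrank hw (by simp), ?_⟩
  rw [coe_basisOfLinearIndependentOfCardEqFinrank]
  rfl

/-- the commutator subgroup of a group is commutative if the group is triangular -/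
private theorem qtri_der {G : Type} [Group G]
    (h : ∀ a ∈ commutator G, ∀ b ∈ commutator G, a * b = b * a) : derivedSeries G 2 = ⊥ := by
  have h1 : derivedSeries G 1 = commutator G := by
    rw [derivedSeries_one]
  show derivedSeries G (1 + 1) = ⊥
  rw [derivedSeries_succ, h1, Subgroup.commutator_eq_bot_iff_le_centralizer]
  intro a ha
  rw [Subgroup.mem_centralizer_iff]
  intro b hb
  exact h b hb a ha

private theorem qtri_one {K R B : Type} [Field K] [CommRing R] [Algebra K R] [CommRing B]
    [Nontrivial B] (ε : R →+* B) {G : Type} [Group G] (ρ : G →* GL (Fin 2) R) (ht : TrC K ρ)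
    (h : G) (hh : (ρ h : Matrix (Fin 2) (Fin 2) R).map ε = 1) (g : G) :
    Matrix.trace ((ρ g : Matrix (Fin 2) (Fin 2) R) * (ρ h : Matrix (Fin 2) (Fin 2) R)) =
      Matrix.trace (ρ g : Matrix (Fin 2) (Fin 2) R) := by
  obtain ⟨k, hk⟩ := ht (g * h)
  obtain ⟨k', hk'⟩ := ht g
  have e1 : ((ρ (g * h) : GL (Fin 2) R) : Matrix (Fin 2) (Fin 2) R) =
      (ρ g : Matrix (Fin 2) (Fin 2) R) * (ρ h : Matrix (Fin 2) (Fin 2) R) := by
    rw [map_mul]; rfl
  rw [e1] at hk
  have e2 : ε (Matrix.trace ((ρ g : Matrix (Fin 2) (Fin 2) R) *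
      (ρ h : Matrix (Fin 2) (Fin 2) R))) =
      ε (Matrix.trace (ρ g : Matrix (Fin 2) (Fin 2) R)) := by
    rw [AddMonoidHom.map_trace ε, AddMonoidHom.map_trace ε]
    congr 1
    show (((ρ g : Matrix (Fin 2) (Fin 2) R) * (ρ h : Matrix (Fin 2) (Fin 2) R)).map ε) =
      (ρ g : Matrix (Fin 2) (Fin 2) R).map ε
    rw [Matrix.map_mul, hh, mul_one]
  rw [hk, hk'] at e2
  have e3 : Function.Injective (ε.comp (algebraMap K R)) := RingHom.injective _
  have e4 : k = k' := e3 (by simpa using e2)
  rw [hk, hk', e4]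

theorem q_tri {K R B : Type} [Field K] [CommRing R] [IsDomain R] [Algebra K R] [CommRing B]
    [Nontrivial B] (ε : R →+* B) {G : Type} [Group G] (ρ : G →* GL (Fin 2) R)
    (hρ : Function.Injective ρ) (ht : TrC K ρ) :
    derivedSeries G 2 = ⊥ ∨
      ∀ g : G, (ρ g : Matrix (Fin 2) (Fin 2) R).map ε = 1 → g = 1 := by
  classical
  let F := FractionRing R
  let ρ' : G →* GL (Fin 2) F := (Matrix.GeneralLinearGroup.map (algebraMap R F)).comp ρ
  have hgv : ∀ g, gv F (ρ' g) = rv F ρ g := fun g => rfl
  have hinj : Function.Injective (rv F ρ) := rv_injective hρ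
  have hinj' : Function.Injective ρ' := by
    intro a b hab
    exact hinj (by rw [← hgv, ← hgv, hab])
  by_cases hI : Irr ρ'
  · right
    intro h hh
    obtain ⟨g, hg⟩ := burnside ρ' hI
    have hmat : ∀ x : G, ((ρ' x : GL (Fin 2) F) : Matrix (Fin 2) (Fin 2) F) =
        (ρ x : Matrix (Fin 2) (Fin 2) R).map (algebraMap R F) := fun x => rfl
    have htr : ∀ i, Matrix.trace (((ρ' (g i) : GL (Fin 2) F) : Matrix (Fin 2) (Fin 2) F) *
        (((ρ' h : GL (Fin 2) F) : Matrix (Fin 2) (Fin 2) F) - 1)) = 0 := by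
      intro i
      have e1 := congrArg (algebraMap R F) (qtri_one (K := K) ε ρ ht h hh (g i))
      rw [AddMonoidHom.map_trace (algebraMap R F), AddMonoidHom.map_trace (algebraMap R F)] at e1
      have e2 : (((ρ (g i) : Matrix (Fin 2) (Fin 2) R) *
          (ρ h : Matrix (Fin 2) (Fin 2) R)).map (algebraMap R F)) =
          (ρ (g i) : Matrix (Fin 2) (Fin 2) R).map (algebraMap R F) *
            (ρ h : Matrix (Fin 2) (Fin 2) R).map (algebraMap R F) := Matrix.map_mul
      rw [hmat, hmat, mul_sub, mul_one, Matrix.trace_sub, ← e2]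
      exact sub_eq_zero.2 e1
    have hspan : Submodule.span F (Set.range fun i =>
        ((ρ' (g i) : GL (Fin 2) F) : Matrix (Fin 2) (Fin 2) F)) = ⊤ := by
      apply hg.span_eq_top_of_card_eq_finrank'
      rw [Module.finrank_matrix]
      simp
    have hall : ∀ A : Matrix (Fin 2) (Fin 2) F, Matrix.trace (A *
        (((ρ' h : GL (Fin 2) F) : Matrix (Fin 2) (Fin 2) F) - 1)) = 0 := by
      intro A
      have hA : A ∈ Submodule.span F (Set.range fun i =>
        ((ρ' (g i) : GL (Fin 2) F) : Matrix (Fin 2) (Fin 2) F)) := by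
        rw [hspan]; trivial
      induction hA using Submodule.span_induction with
      | mem x hx =>
        obtain ⟨i, rfl⟩ := hx
        exact htr i
      | zero => simp
      | add x y _ _ h1 h2 => rw [add_mul, Matrix.trace_add, h1, h2, add_zero]
      | smul a x _ h1 => rw [smul_mul_assoc, Matrix.trace_smul, h1, smul_zero]
    have hone : ((ρ' h : GL (Fin 2) F) : Matrix (Fin 2) (Fin 2) F) = 1 := by
      rw [Matrix.ext_iff_trace_mul_left]
      intro A
      have := hall A
      rw [mul_sub, Matrix.trace_sub, sub_eq_zero] at this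
      exact this
    apply hinj'
    rw [map_one]
    exact Units.ext hone
  · left
    have hI' : (∃ v : Fin 2 → F, v ≠ 0 ∧ ∀ g, ∃ a : F, gv F (ρ' g) v = a • v) ∨
        ∀ g h, ρ' g * ρ' h = ρ' h * ρ' g := by
      by_contra hcon
      push Not at hcon
      exact hI ⟨hcon.1, hcon.2⟩
    rcases hI' with ⟨v, hv, hinv⟩ | hc
    · obtain ⟨e, he⟩ := qtri_basis v hv
      have hT : Tri (rv F ρ) e ⊤ := by
        intro g
        have hne : ∀ x : Fin 2 → F, x ≠ 0 → rv F ρ g x ≠ 0 := by
          intro x hx h0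
          exact hx ((rv F ρ g).map_eq_zero_iff.1 h0)
        obtain ⟨a, ha⟩ := hinv g
        rw [hgv, ← he] at ha
        have ha0 : a ≠ 0 := by
          rintro rfl
          rw [zero_smul] at ha
          exact hne (e 0) (e.ne_zero 0) ha
        refine ⟨⟨Units.mk0 a ha0, trivial, ha⟩, ?_⟩
        have hb0 : e.repr (rv F ρ g (e 1)) 1 ≠ 0 := by
          intro hb
          have h2 : rv F ρ g (e 1) = e.repr (rv F ρ g (e 1)) 0 • e 0 := by
            have h3 := e.sum_repr (rv F ρ g (e 1))
            rw [Fin.sum_univ_two, hb, zero_smul, add_zero] at h3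
            exact h3.symm
          have h4 : rv F ρ g (e 1 - (a⁻¹ * e.repr (rv F ρ g (e 1)) 0) • e 0) = 0 := by
            rw [map_sub, map_smul, ha, smul_smul, mul_comm a⁻¹, mul_assoc,
              inv_mul_cancel₀ ha0, mul_one, ← h2, sub_self]
          refine hne _ ?_ h4
          intro h5
          have h6 := congrArg (fun x => e.repr x 1) h5
          simp at h6
        exact ⟨Units.mk0 _ hb0, trivial, rfl⟩
      obtain ⟨α, β, hab⟩ := tri_char hT
      apply qtri_der
      intro a ha b hb
      have hα := Abelianization.commutator_subset_ker α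
      have hβ := Abelianization.commutator_subset_ker β
      have haα : α a = 1 := hα ha
      have haβ : β a = 1 := hβ ha
      have hbα : α b = 1 := hα hb
      have hbβ : β b = 1 := hβ hb
      obtain ⟨a1, a2⟩ := hab a
      obtain ⟨b1, b2⟩ := hab b
      rw [haα] at a1
      rw [haβ] at a2
      rw [hbα] at b1
      rw [hbβ] at b2
      exact hinj (tri_comm a1 a2 b1 b2)
    · apply qtri_der
      intro a _ b _
      apply hinj'
      rw [map_mul, map_mul, hc]

theorem q_inj {K R B : Type} [Field K] [CommRing R] [IsDomain R] [Algebra K R] {d : R → ℕ}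
    (h : DegFun K R d) [CommRing B] [Nontrivial B] (ε : R →+* B) {G : Type} [Group G]
    (tf : TorsionFree G) (ρ : G →* GL (Fin 2) R) (hρ : Function.Injective ρ)
    (h1 : ∀ H : Subgroup G, derivedSeries H 2 = ⊥ → StV H)
    (h2 : ∀ H : Subgroup G,
      (∀ g ∈ H, (ρ g : Matrix (Fin 2) (Fin 2) R).map ε = 1 → g = 1) → StV H) : StV G := by
  refine q_core h tf ρ hρ fun H hH => ?_
  rcases q_tri (K := K) ε (ρ.comp H.subtype)
    (hρ.comp (by rw [Subgroup.coe_subtype]; exact Subtype.val_injective)) hH with h3 | h3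
  · exact h1 H h3
  · refine h2 H fun g hg hm => ?_
    have h4 := h3 ⟨g, hg⟩ hm
    exact congrArg Subtype.val h4

end Pool.Agent.Lib.SLT
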