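import Pool.Agent.Lib.SLT.QTree
import Pool.Agent.Lib.SLT.QTri

set_option autoImplicit false

/-!
# QUni: the inheritance theorem with a second tree
-/

namespace Pool.Agent.Lib.SLT

open Pool.Agent.Lib.MP_16fe43_al (StV StReg TAct tree_long)
open Pool.Agent.Lib.BHS16 (TorsionFree)

/-- a torsion-free group whose traces are constant and whose elements are quasi-unipotent after `ε`
is commutative -/
theorem qun_comm {K R B : Type} [Field K] [CommRing R] [IsDomain R] [Algebra K R] {d : R → ℕ}
    (h : DegFun K R d) [CommRing B] [Nontrivial B] (ε : R →+* B) {G : Type} [Group G]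
    (tf : TorsionFree G) (ρ : G →* GL (Fin 2) R) (hρ : Function.Injective ρ) (ht : TrC K ρ)
    (hq : ∀ g : G, QUn ((ρ g : Matrix (Fin 2) (Fin 2) R).map ε)) (g g' : G) :
    g * g' = g' * g := by
  have hq' : ∀ g : G, QUn (ρ g : Matrix (Fin 2) (Fin 2) R) := by
    intro g
    refine qun_lift (K := K) ε _ (fun m => ?_) (fun m => ?_) (hq g)
    · obtain ⟨k, hk⟩ := ht (g ^ m)
      refine ⟨k, ?_⟩
      rw [← hk]
      simp
    · have hu : IsUnit (Matrix.det ((ρ g : Matrix (Fin 2) (Fin 2) R) ^ m)) := by
        rw [Matrix.det_pow]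
        exact IsUnit.pow m ((Matrix.isUnit_iff_isUnit_det _).1 (ρ g).isUnit)
      exact h.unit_const hu
  refine qu_comm (F := FractionRing R) tf
    ((Matrix.GeneralLinearGroup.map (algebraMap R (FractionRing R))).comp ρ) ?_ ?_ g g'
  · intro a b hab
    apply hρ
    apply Units.ext
    have h1 : (ρ a : Matrix (Fin 2) (Fin 2) R).map (algebraMap R (FractionRing R)) =
        (ρ b : Matrix (Fin 2) (Fin 2) R).map (algebraMap R (FractionRing R)) :=
      congrArg (fun u : GL (Fin 2) (FractionRing R) =>
        (u : Matrix (Fin 2) (Fin 2) (FractionRing R))) hab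
    exact Matrix.map_injective (IsFractionRing.injective R (FractionRing R)) h1
  · intro g
    obtain ⟨m, hm, h1⟩ := hq' g
    refine ⟨m, hm, ?_⟩
    have h2 := congrArg ((algebraMap R (FractionRing R)).mapMatrix (m := Fin 2)) h1
    rw [map_pow, map_sub, map_pow, map_one, map_zero] at h2
    exact h2

theorem q_uni {K R B : Type} [Field K] [CommRing R] [IsDomain R] [Algebra K R] {d : R → ℕ}
    (h : DegFun K R d) [CommRing B] [Nontrivial B] (ε : R →+* B) {G : Type} [Group G]
    (tf : TorsionFree G) (ρ : G →* GL (Fin 2) R) (hρ : Function.Injective ρ) {X : Type}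
    [MulAction G X] {T : SimpleGraph X} (hT : TAct G T)
    (hE : ∀ (g : G) (x y : X), T.Adj x y → g • x = x → g • y = y →
      QUn ((ρ g : Matrix (Fin 2) (Fin 2) R).map ε))
    (hV : ∀ (x : X) (H : Subgroup G), (∀ g ∈ H, g • x = x) →
      (∃ g ∈ H, ¬ QUn ((ρ g : Matrix (Fin 2) (Fin 2) R).map ε)) →
      (derivedSeries H 2 = ⊥ ∨ ∀ g ∈ H, (ρ g : Matrix (Fin 2) (Fin 2) R).map ε = 1 → g = 1) →
      StV H) :
    StV G := by
  refine q_core h tf ρ hρ fun H hH => ?_
  have hT' : TAct H T := ⟨hT.tree, fun g u v huv => hT.adj (g : G) u v huv,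
    fun g u v huv => hT.noinv (g : G) u v huv⟩
  -- subgroups of `H` all of whose elements are quasi-unipotent
  have key : ∀ (S : Subgroup H),
      (∀ g : S, QUn ((ρ ((g : H) : G) : Matrix (Fin 2) (Fin 2) R).map ε)) →
      StReg S ∧ StV S := by
    intro S hS
    have hinj : Function.Injective (H.subtype.comp S.subtype) :=
      H.subtype_injective.comp S.subtype_injective
    have tfS : TorsionFree S := tf.of_injective (H.subtype.comp S.subtype) hinj
    have hc : ∀ g g' : S, g * g' = g' * g := by
      intro g g'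
      exact qun_comm h ε tfS (ρ.comp (H.subtype.comp S.subtype)) (hρ.comp hinj)
        (fun g => hH ((g : S) : H)) hS g g'
    exact ⟨stReg_comm hc tfS, stV_comm hc tfS⟩
  refine tree_long (n := 1) hT' (fun x y hxy => (key _ fun g => ?_).1) (fun v => ?_)
    (fun x y hxy k => ((key _ fun g => ?_).2 k).2.1)
  · exact hE ((g : H) : G) x y (SimpleGraph.dist_eq_one_iff_adj.1 hxy) g.2.1 g.2.2
  · -- a vertex group
    by_cases hQ : ∀ g : MulAction.stabilizer H v,
        QUn ((ρ ((g : H) : G) : Matrix (Fin 2) (Fin 2) R).map ε)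
    · exact (key _ hQ).2
    · push Not at hQ
      obtain ⟨g₀, hg₀⟩ := hQ
      let S : Subgroup G := (MulAction.stabilizer H v).map H.subtype
      have e : MulAction.stabilizer H v ≃* S :=
        (MulAction.stabilizer H v).equivMapOfInjective H.subtype H.subtype_injective
      have hSv : ∀ g ∈ S, g • v = v := by
        rintro g ⟨g', hg', rfl⟩
        exact hg'
      have hSH : S ≤ H := by
        rintro g ⟨g', -, rfl⟩
        exact g'.2
      have h1 : derivedSeries S 2 = ⊥ ∨
          ∀ g : S, ((ρ.comp S.subtype) g : Matrix (Fin 2) (Fin 2) R).map ε = 1 → g = 1 :=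
        q_tri (K := K) ε (ρ.comp S.subtype) (hρ.comp S.subtype_injective)
          fun g => hH ⟨(g : G), hSH g.2⟩
      have h2 : StV S := by
        refine hV v S hSv ⟨((g₀ : H) : G), ⟨g₀, g₀.2, rfl⟩, hg₀⟩ ?_
        rcases h1 with h1 | h1
        · exact Or.inl h1
        · refine Or.inr fun g hg hm => ?_
          have h4 := h1 ⟨g, hg⟩ hm
          exact congrArg Subtype.val h4
      exact FPT.stV_of_equiv e.symm h2
  · exact hE ((g : H) : G) x y hxy g.2.1 g.2.2

end Pool.Agent.Lib.SLT
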