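import Pool.Agent.Lib.SLT.UDefs
import Pool.Agent.Lib.SLT.ESubd

set_option autoImplicit false

/-!
# USubd: subdivision

PROOF. Let `ι, X, T` be given by `PFin ρ`. `subdiv` (ESubd) for each `i` gives `X' i`, `T' i` with `TAct K (T' i)`, and for each
`x' : X' i` one of: a vertex `v` of `X i` with the same stabilizer, or adjacent `a, b : X i` which every element
of the stabilizer of `x'` fixes or exchanges. So for `x' : ∀ i, X' i` choose `a i, b i : X i` (`b i = a i = v` in the
first case) such that `g • a i ∈ {a i, b i}` for all `g` in `Z' = {g | ∀ i, g • x' i = x' i}`. The function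
`Φ : g ↦ (fun i => g • a i)` maps `Z'` to the finite set `Set.pi Set.univ (fun i => {a i, b i})`. For `y` in this set
and `g₀ ∈ Z'` with `Φ g₀ = y` every `g ∈ Z'` with `Φ g = y` is `g₀ z`, `z = g₀⁻¹ g` fixes all the `a i`, so
`ρ g ∈ ρ g₀ • ρ '' {z | ∀ i, z • a i = a i}`, a finite set. So `ρ '' Z'` is a finite union of finite sets.
-/

namespace Pool.Agent.Lib.SLT

open MulAction (stabilizer)
open Pool.Agent.Lib.MP_16fe43_al (TAct)

theorem pfin_pfinT {K H : Type} [Group K] [Group H] {ρ : K →* H} (h : PFin ρ) : PFinT ρ := by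
  classical
  obtain ⟨ι, hι, X, T, act, hT, hadj, hfin⟩ := h
  have hs : ∀ i, ∃ (X' : Type) (_ : MulAction K X') (T' : SimpleGraph X'), TAct K T' ∧
      ∀ x : X', ∃ a b : X i, ∀ g : K, g • x = x → g • a = a ∨ g • a = b := by
    intro i
    obtain ⟨X', act', T', h1, h2, -⟩ := subdiv (G := K) (hT i) (fun g a b => hadj i g a b)
    refine ⟨X', act', T', h1, fun x => ?_⟩
    rcases h2 x with ⟨v, hv⟩ | ⟨a, b, -, hab⟩
    · refine ⟨v, v, fun g hg => Or.inl ?_⟩
      have hm : g ∈ stabilizer K x := hg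
      rw [hv] at hm
      exact hm
    · refine ⟨a, b, fun g hg => ?_⟩
      rcases hab g hg with h | h
      · exact Or.inl h.1
      · exact Or.inr h.1
  choose X' act' T' hT' hab using hs
  refine ⟨ι, hι, X', T', act', hT', fun x' => ?_⟩
  choose a b hg using fun i => hab i (x' i)
  have hF : (Set.pi Set.univ (fun i => ({a i, b i} : Set (X i)))).Finite :=
    Set.Finite.pi (fun i => Set.toFinite _)
  refine (hF.biUnion (t := fun y => ρ '' {g : K | (∀ i, g • x' i = x' i) ∧ (fun i => g • a i) = y})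
    (fun y _ => ?_)).subset ?_
  · rcases Set.eq_empty_or_nonempty {g : K | (∀ i, g • x' i = x' i) ∧ (fun i => g • a i) = y} with
      he | ⟨g0, -, hy0⟩
    · rw [he, Set.image_empty]
      exact Set.finite_empty
    · refine ((hfin a).image (fun z => ρ g0 * z)).subset ?_
      rintro _ ⟨g, ⟨-, hy⟩, rfl⟩
      refine ⟨ρ (g0⁻¹ * g), ⟨g0⁻¹ * g, ?_, rfl⟩, ?_⟩
      · intro i
        have h1 : g • a i = g0 • a i := (congrFun hy i).trans (congrFun hy0 i).symm
        rw [mul_smul, h1, inv_smul_smul]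
      · show ρ g0 * ρ (g0⁻¹ * g) = ρ g
        rw [← map_mul, mul_inv_cancel_left]
  · rintro _ ⟨g, hz, rfl⟩
    refine Set.mem_biUnion (x := fun i => g • a i) ?_ ⟨g, ⟨hz, rfl⟩, rfl⟩
    intro i _
    rcases hg i g (hz i) with h | h
    · exact Or.inl h
    · exact Or.inr h

end Pool.Agent.Lib.SLT
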