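import Pool.Agent.Lib.SLT.YTop

set_option autoImplicit false

/-!
# YHv: the final application from the theorem in the form with trees indexed by `Fin m`
-/

namespace Pool.Agent.Lib.SLT

open Pool.Agent.Lib.MP_16fe43_al (StV)
open Pool.Agent.Lib.BHS16 (TorsionFree)
open scoped MatrixGroups Quaternion

theorem hv_of_main (VM : ∀ {G : Type} [Group G] (_ : TorsionFree G) (K : Subgroup G) [K.FiniteIndex]
      {m : ℕ} (X : Fin m → Type) (T : ∀ i, SimpleGraph (X i)) [∀ i, MulAction K (X i)]
      (_ : ∀ i, (T i).IsTree)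
      (_ : ∀ (i : Fin m) (g : K) (u v : X i), (T i).Adj u v → (T i).Adj (g • u) (g • v))
      (_ : ∀ g : K, (∀ i, ∃ x : X i, g • x = x) → g = 1), StV G) :
    ∀ (G : Type) [Group G] (K : Subgroup G) [K.FiniteIndex], TorsionFree G → FreeAct K → StV G := by
  rintro G _ K _ tf ⟨ι, hι, X, T, act, hT, hadj, hfree⟩
  obtain ⟨m, ⟨e⟩⟩ := Finite.exists_equiv_fin ι
  refine VM tf K (fun i => X (e.symm i)) (fun i => T (e.symm i)) (fun i => hT _)
    (fun i g u v h => hadj _ g u v h) fun g hg => hfree g fun i => ?_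
  have h1 : ∃ x : X (e.symm (e i)), g • x = x := hg (e i)
  rwa [e.symm_apply_apply] at h1

end Pool.Agent.Lib.SLT
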