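import Pool.Agent.Lib.SLT.YTop

set_option autoImplicit false

/-!
# YLin: finitely generated torsion-free linear groups act freely on finite products of trees
-/

namespace Pool.Agent.Lib.SLT

open Pool.Agent.Lib.MP_16fe43_al (StV)
open Pool.Agent.Lib.BHS16 (TorsionFree)
open scoped MatrixGroups Quaternion

/-- a finitely generated torsion-free group with jointly injective homomorphisms to `GL₂(R)`, `R` a
commutative ring with `n = 0`, and to finitely many unit groups of quaternions over fields
`ℚ(t₁, …, t_d)`, acts on finitely many trees such that only `1` fixes a vertex of each of them -/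
theorem free_lin {K : Type} [Group K] (tf : TorsionFree K) (fg : Group.FG K)
    {R : Type} [CommRing R] {n : ℕ} (hn : 0 < n) (hR : (n : R) = 0) (ρ : K →* GL (Fin 2) R)
    {m : ℕ} (d : Fin m → ℕ) (τ : ∀ j, K →* (ℍ[RatFun (d j)])ˣ)
    (inj : ∀ g : K, ρ g = 1 → (∀ j, τ j g = 1) → g = 1) : FreeAct K := by
  obtain ⟨κ, hκ, p, F, fF, hp, σ, hpr, hσ⟩ := ring_red hn hR fg ρ
  have h1 : PFin (MonoidHom.pi σ) := pfin_pi σ fun i => by
    have : Fact (p i).Prime := ⟨hpr i⟩
    exact pfin_gl (p := p i) fg (σ i)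
  have h2 : PFin (MonoidHom.pi τ) := pfin_pi _ fun j => pfin_quat (d := d j) fg (τ j)
  refine free_of_pfin_inj tf (pfin_prod h1 h2) ?_
  intro g hg
  rw [MonoidHom.prod_apply, Prod.mk_eq_one] at hg
  obtain ⟨M, hM, h3⟩ := hσ g fun i => congrFun hg.1 i
  have h4 : g ^ M = 1 := by
    refine inj _ ?_ fun j => ?_
    · rw [map_pow]
      exact h3
    · have h5 : τ j g = 1 := congrFun hg.2 j
      rw [map_pow, h5, one_pow]
  exact tf g (isOfFinOrder_iff_pow_eq_one.2 ⟨M, hM, h4⟩)

end Pool.Agent.Lib.SLT
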